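import Pool.Agent.Helper13.RS.St

/-!
# Project RS, module DB: deterministic survivors, large `z`
-/

set_option autoImplicit false

namespace Pool.Agent.Helper6.RS

open Pool.Agent.Helper13.RS Finset

/-- the window number `i` -/
noncomputable def win (Z : ℝ) (k i : ℕ) : Finset ℕ :=
  Pr (Z ^ (1 - ((i : ℝ) + 1) / (4 * (k : ℝ) ^ 2))) (Z ^ (1 - (i : ℝ) / (4 * (k : ℝ) ^ 2)))

theorem mem_Pr_DB {u v : ℝ} {p : ℕ} (hv : 0 ≤ v) (h : p ∈ Pr u v) :
    p.Prime ∧ u < (p : ℝ) ∧ (p : ℝ) ≤ v := by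
  classical
  unfold Pr at h
  rw [mem_filter, mem_Icc] at h
  exact ⟨h.2.1, h.2.2, (Nat.le_floor_iff hv).1 h.1.2⟩

theorem win_facts {Z : ℝ} {k i p : ℕ} (hZ : 1 ≤ Z) (hk : 3 ≤ k) (hi : i < k)
    (h : p ∈ win Z k i) :
    p.Prime ∧ (p : ℝ) ≤ Z ∧ Z ^ (1 - 1 / (4 * (k : ℝ))) ≤ p ∧ Z ^ (1 / 2 : ℝ) < p := by
  have hZ0 : 0 < Z := by linarith
  obtain ⟨h1, h2, h3⟩ := mem_Pr_DB (Real.rpow_nonneg hZ0.le _) h
  have hk' : (3 : ℝ) ≤ k := by exact_mod_cast hk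
  have hi' : (i : ℝ) + 1 ≤ k := by exact_mod_cast hi
  have e1 : ((i : ℝ) + 1) / (4 * (k : ℝ) ^ 2) ≤ 1 / (4 * (k : ℝ)) := by
    rw [div_le_div_iff₀ (by positivity) (by positivity)]
    nlinarith
  have e2 : 1 / (4 * (k : ℝ)) ≤ 1 / 2 := by
    rw [div_le_div_iff₀ (by positivity) (by positivity)]
    linarith
  refine ⟨h1, ?_, ?_, ?_⟩
  · refine h3.trans ?_
    calc Z ^ (1 - (i : ℝ) / (4 * (k : ℝ) ^ 2)) ≤ Z ^ (1 : ℝ) := by
          refine Real.rpow_le_rpow_of_exponent_le hZ ?_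
          have : 0 ≤ (i : ℝ) / (4 * (k : ℝ) ^ 2) := by positivity
          linarith
      _ = Z := Real.rpow_one Z
  · exact (Real.rpow_le_rpow_of_exponent_le hZ (by linarith)).trans h2.le
  · exact (Real.rpow_le_rpow_of_exponent_le hZ (by linarith)).trans_lt h2

theorem win_disj {Z : ℝ} {k i j p : ℕ} (hZ : 1 ≤ Z) (hk : 3 ≤ k) (hij : i < j)
    (hi : p ∈ win Z k i) (hj : p ∈ win Z k j) : False := by
  have hZ0 : 0 < Z := by linarith
  have h1 := (mem_Pr_DB (Real.rpow_nonneg hZ0.le _) hi).2.1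
  have h2 := (mem_Pr_DB (Real.rpow_nonneg hZ0.le _) hj).2.2
  have hk' : (3 : ℝ) ≤ k := by exact_mod_cast hk
  have hij' : (i : ℝ) + 1 ≤ j := by exact_mod_cast hij
  have h3 : Z ^ (1 - (j : ℝ) / (4 * (k : ℝ) ^ 2)) ≤ Z ^ (1 - ((i : ℝ) + 1) / (4 * (k : ℝ) ^ 2)) := by
    refine Real.rpow_le_rpow_of_exponent_le hZ ?_
    have : ((i : ℝ) + 1) / (4 * (k : ℝ) ^ 2) ≤ (j : ℝ) / (4 * (k : ℝ) ^ 2) :=
      div_le_div_of_nonneg_right hij' (by positivity)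
    linarith
  linarith

/-- bounds for the product -/
theorem prod_bounds {Z : ℝ} {k : ℕ} (hZ : 1 ≤ Z) (hk : 3 ≤ k) (f : Fin (k - 2) → ℕ)
    (hf : ∀ i : Fin (k - 2), f i ∈ win Z k i) :
    (((∏ i, f i : ℕ) : ℝ) ≤ Z ^ (k - 2)) ∧ Z ^ k ≤ ((∏ i, f i : ℕ) : ℝ) * Z ^ (9 / 4 : ℝ) := by
  have hZ0 : 0 < Z := by linarith
  have hi : ∀ i : Fin (k - 2), (i : ℕ) < k := fun i => by have := i.2; omega
  push_cast
  constructor
  · calc ∏ i, (f i : ℝ) ≤ ∏ _i : Fin (k - 2), Z :=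
          Finset.prod_le_prod (fun i _ => by positivity) fun i _ => (win_facts hZ hk (hi i) (hf i)).2.1
      _ = Z ^ (k - 2) := by simp
  · have hk' : (3 : ℝ) ≤ k := by exact_mod_cast hk
    have h1 : (Z ^ (1 - 1 / (4 * (k : ℝ)))) ^ (k - 2) ≤ ∏ i, (f i : ℝ) := by
      calc (Z ^ (1 - 1 / (4 * (k : ℝ)))) ^ (k - 2) =
            ∏ _i : Fin (k - 2), Z ^ (1 - 1 / (4 * (k : ℝ))) := by simp
        _ ≤ ∏ i, (f i : ℝ) := Finset.prod_le_prod (fun i _ => by positivity)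
            fun i _ => (win_facts hZ hk (hi i) (hf i)).2.2.1
    have h2 : Z ^ k ≤ (Z ^ (1 - 1 / (4 * (k : ℝ)))) ^ (k - 2) * Z ^ (9 / 4 : ℝ) := by
      rw [← Real.rpow_natCast, ← Real.rpow_natCast, ← Real.rpow_mul hZ0.le, ← Real.rpow_add hZ0]
      refine Real.rpow_le_rpow_of_exponent_le hZ ?_
      rw [Nat.cast_sub (by omega : 2 ≤ k)]
      push_cast
      have h3 : (1 - 1 / (4 * (k : ℝ))) * (k - 2) = k - 2 - 1 / 4 + 1 / (2 * (k : ℝ)) := by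
        field_simp
        ring
      rw [h3]
      have : 0 ≤ 1 / (2 * (k : ℝ)) := by positivity
      linarith
    exact h2.trans (mul_le_mul_of_nonneg_right h1 (by positivity))

theorem e2_cases (a : ℕ → ℤ) : e2 a = 1 ∨ e2 a = 2 := by
  classical
  unfold e2
  split_ifs
  · exact Or.inl rfl
  · exact Or.inr rfl

/-- sizes -/
theorem sizes {Z : ℝ} {k y : ℕ} (a : ℕ → ℤ) (hk : 3 ≤ k) (hZ : 9 ≤ Real.log Z) (hZ1 : 1 ≤ Z)
    (hy : Z ^ k = (y : ℝ)) (m P : ℕ) (hm : 1 ≤ m) (hm' : (m : ℝ) ≤ Z ^ (1 / 4 : ℝ)) (hP : 1 ≤ P)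
    (hP1 : (P : ℝ) ≤ Z ^ (k - 2)) (hP2 : Z ^ k ≤ (P : ℝ) * Z ^ (9 / 4 : ℝ)) :
    Z ≤ ((y / (2 * (e2 a * m * P)) : ℕ) : ℝ) ∧
    (y : ℝ) / (8 * m * P) ≤ ((y / (2 * (e2 a * m * P)) : ℕ) : ℝ) ∧
    2 * ((y / (2 * (e2 a * m * P)) : ℕ) : ℝ) ≤ Z ^ 3 := by
  have hZ0 : 0 < Z := by linarith
  have he1 : (1 : ℝ) ≤ e2 a := by rcases e2_cases a with h | h <;> rw [h] <;> norm_num
  have he2 : (e2 a : ℝ) ≤ 2 := by rcases e2_cases a with h | h <;> rw [h] <;> norm_num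
  have hm1 : (1 : ℝ) ≤ m := by exact_mod_cast hm
  have hP' : (1 : ℝ) ≤ P := by exact_mod_cast hP
  set n₀ : ℕ := e2 a * m * P with hn₀
  have hn₀' : (n₀ : ℝ) = e2 a * m * P := by rw [hn₀]; push_cast; ring
  have hn1 : (1 : ℝ) ≤ n₀ := by
    rw [hn₀']
    have : (1 : ℝ) ≤ e2 a * m := by nlinarith
    nlinarith
  have hn2 : (n₀ : ℝ) ≤ 2 * m * P := by
    rw [hn₀']
    have : (e2 a : ℝ) * m ≤ 2 * m := by nlinarith
    nlinarith
  -- powers of Z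
  have hZ34 : (8 : ℝ) ≤ Z ^ (3 / 4 : ℝ) := by
    have h1 : Real.log 8 ≤ Real.log (Z ^ (3 / 4 : ℝ)) := by
      rw [Real.log_rpow hZ0]
      have h2 : Real.log 8 ≤ 3 := by
        have h3 : Real.log 8 = 3 * Real.log 2 := by
          rw [show (8 : ℝ) = 2 ^ 3 by norm_num, Real.log_pow]
          norm_num
        have := Real.log_two_lt_d9
        rw [h3]
        linarith
      linarith
    exact (Real.log_le_log_iff (by norm_num) (by positivity)).1 h1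
  have hkey : 8 * Z * (Z ^ (1 / 4 : ℝ) * Z ^ (k - 2)) ≤ y := by
    rw [← hy]
    have h1 : Z ^ k = Z ^ (3 / 4 : ℝ) * Z ^ (1 : ℝ) * (Z ^ (1 / 4 : ℝ) * Z ^ (k - 2)) := by
      have h2 : Z ^ (3 / 4 : ℝ) * Z ^ (1 : ℝ) * (Z ^ (1 / 4 : ℝ) * Z ^ (k - 2)) =
          (Z ^ (3 / 4 : ℝ) * Z ^ (1 : ℝ) * Z ^ (1 / 4 : ℝ)) * Z ^ (k - 2) := by ring
      rw [h2, ← Real.rpow_add hZ0, ← Real.rpow_add hZ0]
      norm_num
      rw [← pow_add]
      congr 1
      omega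
    rw [h1, Real.rpow_one]
    have h3 : 0 ≤ Z * (Z ^ (1 / 4 : ℝ) * Z ^ (k - 2)) := by positivity
    nlinarith
  have hmP : (m : ℝ) * P ≤ Z ^ (1 / 4 : ℝ) * Z ^ (k - 2) :=
    mul_le_mul hm' hP1 (by positivity) (by positivity)
  -- the real quotient
  have hq1 : 2 * Z ≤ (y : ℝ) / (2 * n₀) := by
    rw [le_div_iff₀ (by positivity)]
    calc 2 * Z * (2 * (n₀ : ℝ)) ≤ 2 * Z * (2 * (2 * m * P)) := by gcongr
      _ = 8 * Z * (m * P) := by ring
      _ ≤ 8 * Z * (Z ^ (1 / 4 : ℝ) * Z ^ (k - 2)) := by gcongr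
      _ ≤ y := hkey
  have hfl : (y : ℝ) / (2 * n₀) - 1 < ((y / (2 * n₀) : ℕ) : ℝ) := by
    have h1 := Nat.lt_div_mul_add (a := y) (b := 2 * n₀) (by
      have : (0 : ℝ) < n₀ := by linarith
      have : 0 < n₀ := by exact_mod_cast this
      omega)
    have h2 : (y : ℝ) < ((y / (2 * n₀) : ℕ) : ℝ) * (2 * n₀) + 2 * n₀ := by exact_mod_cast h1
    rw [sub_lt_iff_lt_add, div_lt_iff₀ (by positivity)]
    linarith
  have hfl2 : ((y / (2 * n₀) : ℕ) : ℝ) ≤ (y : ℝ) / (2 * n₀) := by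
    have := @Nat.cast_div_le ℝ _ _ _ y (2 * n₀)
    push_cast at this
    exact this
  refine ⟨by linarith, ?_, ?_⟩
  · have h1 : (y : ℝ) / (8 * m * P) ≤ (y : ℝ) / (2 * n₀) / 2 := by
      rw [div_div]
      refine div_le_div_of_nonneg_left (by positivity) (by positivity) ?_
      linarith
    linarith
  · have h1 : 2 * ((y / (2 * n₀) : ℕ) : ℝ) ≤ y / P := by
      calc 2 * ((y / (2 * n₀) : ℕ) : ℝ) ≤ 2 * ((y : ℝ) / (2 * n₀)) := by linarith
        _ = y / n₀ := by field_simp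
        _ ≤ y / P := by
          refine div_le_div_of_nonneg_left (by positivity) (by positivity) ?_
          rw [hn₀']
          have : (1 : ℝ) ≤ e2 a * m := by nlinarith
          nlinarith
    have h2 : (y : ℝ) / P ≤ Z ^ (9 / 4 : ℝ) := by
      rw [div_le_iff₀ (by positivity), ← hy, mul_comm]
      exact hP2
    have h3 : Z ^ (9 / 4 : ℝ) ≤ Z ^ 3 := by
      rw [← Real.rpow_natCast]
      exact Real.rpow_le_rpow_of_exponent_le hZ1 (by norm_num)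
    linarith

theorem logU {Z : ℝ} (hZ : 9 ≤ Real.log Z) (hZ1 : 1 ≤ Z) :
    1 ≤ ⌊Z ^ (1 / 4 : ℝ)⌋₊ ∧ Real.log Z / 8 ≤ Real.log ((⌊Z ^ (1 / 4 : ℝ)⌋₊ : ℕ) : ℝ) := by
  have hZ0 : 0 < Z := by linarith
  have h8 : (2 : ℝ) ≤ Z ^ (1 / 8 : ℝ) := by
    have h1 : Real.log 2 ≤ Real.log (Z ^ (1 / 8 : ℝ)) := by
      rw [Real.log_rpow hZ0]
      have := Real.log_two_lt_d9
      linarith
    exact (Real.log_le_log_iff (by norm_num) (by positivity)).1 h1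
  have h4 : Z ^ (1 / 4 : ℝ) = Z ^ (1 / 8 : ℝ) * Z ^ (1 / 8 : ℝ) := by
    rw [← Real.rpow_add hZ0]
    norm_num
  have h5 : Z ^ (1 / 4 : ℝ) - 1 < ((⌊Z ^ (1 / 4 : ℝ)⌋₊ : ℕ) : ℝ) := by
    have := Nat.lt_floor_add_one (Z ^ (1 / 4 : ℝ))
    linarith
  have h6 : Z ^ (1 / 8 : ℝ) ≤ ((⌊Z ^ (1 / 4 : ℝ)⌋₊ : ℕ) : ℝ) := by
    rw [h4] at h5 ⊢
    nlinarith
  refine ⟨?_, ?_⟩
  · have : (1 : ℝ) ≤ ((⌊Z ^ (1 / 4 : ℝ)⌋₊ : ℕ) : ℝ) := by linarith
    exact_mod_cast this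
  · have h7 : Real.log Z / 8 = Real.log (Z ^ (1 / 8 : ℝ)) := by
      rw [Real.log_rpow hZ0]
      ring
    rw [h7]
    exact Real.log_le_log (by positivity) h6

/-- prime factors -/
theorem pfac {N : ℕ} (a : ℕ → ℤ) (m : ℕ) (f : Fin N → ℕ) (hf : ∀ i, (f i).Prime) (p : ℕ)
    (hp : p.Prime) (h : p ∣ e2 a * m * ∏ i, f i) : p ≤ 2 ∨ p ∣ m ∨ ∃ i, p = f i := by
  rcases (Nat.Prime.dvd_mul hp).1 h with h | h
  · rcases (Nat.Prime.dvd_mul hp).1 h with h | h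
    · left
      refine Nat.le_of_dvd (by norm_num) ?_
      rcases e2_cases a with h' | h'
      · rw [h'] at h
        exact h.trans (by norm_num)
      · rwa [h'] at h
    · exact Or.inr (Or.inl h)
  · obtain ⟨i, -, hi⟩ := (Prime.dvd_finsetProd_iff hp.prime _).1 h
    exact Or.inr (Or.inr ⟨i, (Nat.prime_dvd_prime_iff_eq hp (hf i)).1 hi⟩)

theorem hDB (h1 : StSM) (h2 : StPQ) (h3 : StLO) (h4 : StWI) : StDB := by
  classical
  obtain ⟨c₂, hc₂, hPQ⟩ := h2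
  obtain ⟨c₁, κ, X₀, hc₁, hκ, hκ4, hX₀, hLO⟩ := h3
  obtain ⟨K, hK, hWI⟩ := h4
  refine ⟨c₁ * c₂ / 192, κ, max K X₀, by positivity, hκ, hκ4, hK.trans (le_max_left _ _), ?_⟩
  intro k y w Z a hk hZ1 hy hw hwZ hlog
  have hkR : (3 : ℝ) ≤ k := by exact_mod_cast hk
  have hk9 : (9 : ℝ) ≤ (k : ℝ) ^ 2 := by nlinarith
  have hKk : K * (k : ℝ) ^ 2 ≤ Real.log Z :=
    (mul_le_mul_of_nonneg_right (le_max_left _ _) (by positivity)).trans hlog
  have hXk : X₀ * (k : ℝ) ^ 2 ≤ Real.log Z :=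
    (mul_le_mul_of_nonneg_right (le_max_right _ _) (by positivity)).trans hlog
  have hZ9 : 9 ≤ Real.log Z := by nlinarith
  have hZ0 : 0 < Z := by linarith
  have hZlog : Real.log Z ≤ Z - 1 := Real.log_le_sub_one_of_pos hZ0
  have hX₀Z : X₀ ≤ Z := by nlinarith
  have hZgt : 1 < Z := by linarith
  have hwZ4 : w ≤ Z ^ (1 / 4 : ℝ) := hwZ.trans (Real.rpow_le_rpow_of_exponent_le hZ1 hκ4)
  have hZ42 : Z ^ (1 / 4 : ℝ) ≤ Z ^ (1 / 2 : ℝ) :=
    Real.rpow_le_rpow_of_exponent_le hZ1 (by norm_num)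
  have hZ4 : Z ^ (1 / 4 : ℝ) ≤ Z := by
    calc Z ^ (1 / 4 : ℝ) ≤ Z ^ (1 : ℝ) := Real.rpow_le_rpow_of_exponent_le hZ1 (by norm_num)
      _ = Z := Real.rpow_one Z
  have hZ3 : Z ≤ Z ^ 3 := le_self_pow₀ hZ1 (by norm_num)
  obtain ⟨hU1, hUlog⟩ := logU hZ9 hZ1
  set U : ℕ := ⌊Z ^ (1 / 4 : ℝ)⌋₊ with hU
  set M : Finset ℕ := (Icc 1 U).filter (fun m => ∀ p ∈ BB w a, ¬ p ∣ m) with hM
  set V : Finset (Fin (k - 2) → ℕ) := Fintype.piFinset (fun i : Fin (k - 2) => win Z k i) with hV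
  set pQ : ℝ := ∏ s ∈ QQ w a, (1 - 1 / ((s : ℝ) - 1)) with hpQ
  have hik : ∀ i : Fin (k - 2), (i : ℕ) < k := fun i => by have := i.2; omega
  have hx : ∀ x ∈ M ×ˢ V, 1 ≤ x.1 ∧ (x.1 : ℝ) ≤ Z ^ (1 / 4 : ℝ) ∧ (∀ p ∈ BB w a, ¬ p ∣ x.1) ∧
      (∀ i : Fin (k - 2), x.2 i ∈ win Z k i) ∧ (∀ i, (x.2 i).Prime ∧ (x.2 i : ℝ) ≤ Z ∧
        Z ^ (1 / 2 : ℝ) < x.2 i) ∧ 1 ≤ ∏ i, x.2 i := by
    intro x hx
    rw [mem_product, hM, mem_filter, mem_Icc, hV, Fintype.mem_piFinset] at hx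
    obtain ⟨⟨⟨h5, h6⟩, h7⟩, h8⟩ := hx
    have h9 : ∀ i, (x.2 i).Prime ∧ (x.2 i : ℝ) ≤ Z ∧ Z ^ (1 / 2 : ℝ) < x.2 i := fun i => by
      obtain ⟨g1, g2, -, g4⟩ := win_facts hZ1 hk (hik i) (h8 i)
      exact ⟨g1, g2, g4⟩
    refine ⟨h5, (Nat.le_floor_iff (by positivity)).1 h6, h7, h8, h9, ?_⟩
    exact Nat.one_le_iff_ne_zero.2 (Finset.prod_ne_zero_iff.2 fun i _ => (h9 i).1.ne_zero)
  have hsz : ∀ x ∈ M ×ˢ V,
      Z ≤ ((y / (2 * (e2 a * x.1 * ∏ i, x.2 i)) : ℕ) : ℝ) ∧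
      (y : ℝ) / (8 * x.1 * (∏ i, x.2 i : ℕ)) ≤ ((y / (2 * (e2 a * x.1 * ∏ i, x.2 i)) : ℕ) : ℝ) ∧
      2 * ((y / (2 * (e2 a * x.1 * ∏ i, x.2 i)) : ℕ) : ℝ) ≤ Z ^ 3 := by
    intro x hxm
    obtain ⟨g1, g2, -, g4, -, g6⟩ := hx x hxm
    obtain ⟨b1, b2⟩ := prod_bounds hZ1 hk x.2 g4
    exact sizes a hk hZ9 hZ1 hy x.1 _ g1 g2 g6 b1 b2
  have hF : ∀ x : ℕ × (Fin (k - 2) → ℕ), ∃ F : Finset ℕ, x ∈ M ×ˢ V →
      (∀ q ∈ F, y / (2 * (e2 a * x.1 * ∏ i, x.2 i)) < q ∧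
        q ≤ 2 * (y / (2 * (e2 a * x.1 * ∏ i, x.2 i))) ∧ q.Prime ∧
        Avd w a (e2 a * x.1 * (∏ i, x.2 i) * q)) ∧
      c₁ * (((y / (2 * (e2 a * x.1 * ∏ i, x.2 i)) : ℕ) : ℝ) /
        Real.log ((y / (2 * (e2 a * x.1 * ∏ i, x.2 i)) : ℕ) : ℝ)) * pQ ≤ F.card := by
    intro x
    by_cases hxm : x ∈ M ×ˢ V
    · obtain ⟨g1, g2, g3, g4, g5, g6⟩ := hx x hxm
      obtain ⟨s1, s2, s3⟩ := hsz x hxm
      obtain ⟨F, hF1, hF2⟩ := hLO w a x.1 (∏ i, x.2 i) (y / (2 * (e2 a * x.1 * ∏ i, x.2 i)))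
        (by linarith) (hX₀Z.trans s1)
        (hwZ.trans (Real.rpow_le_rpow hZ0.le s1 hκ.le)) g1 g6 g3 (by
          intro p hp hpd
          obtain ⟨i, -, hi⟩ := (Prime.dvd_finsetProd_iff hp.prime _).1 hpd
          rw [(Nat.prime_dvd_prime_iff_eq hp (g5 i).1).1 hi]
          linarith [(g5 i).2.2])
      exact ⟨F, fun _ => ⟨hF1, hF2⟩⟩
    · exact ⟨∅, fun h => absurd h hxm⟩
  choose F hF using hF
  -- prime factors of `n₀`
  have hpf : ∀ x ∈ M ×ˢ V, ∀ p : ℕ, p.Prime → p ∣ e2 a * x.1 * ∏ i, x.2 i → (p : ℝ) ≤ Z := by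
    intro x hxm p hp hpd
    obtain ⟨g1, g2, -, -, g5, -⟩ := hx x hxm
    rcases pfac a x.1 x.2 (fun i => (g5 i).1) p hp hpd with h | h | ⟨i, h⟩
    · have : (p : ℝ) ≤ 2 := by exact_mod_cast h
      linarith
    · have : (p : ℝ) ≤ x.1 := by exact_mod_cast Nat.le_of_dvd g1 h
      linarith
    · rw [h]
      exact (g5 i).2.1
  have hqZ : ∀ x ∈ M ×ˢ V, ∀ q ∈ F x, Z < (q : ℝ) := by
    intro x hxm q hq
    have h5 := ((hF x hxm).1 q hq).1
    have h6 := (hsz x hxm).1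
    have h7 : ((y / (2 * (e2 a * x.1 * ∏ i, x.2 i)) : ℕ) : ℝ) < q := by exact_mod_cast h5
    linarith
  refine ⟨((M ×ˢ V).sigma F).image (fun z => e2 a * z.1.1 * (∏ i, z.1.2 i) * z.2), ?_, ?_, ?_⟩
  · intro n hn
    rw [mem_image] at hn
    obtain ⟨⟨x, q⟩, hz, rfl⟩ := hn
    rw [mem_sigma] at hz
    obtain ⟨hxm, hq⟩ := hz
    simp only at hxm hq ⊢
    obtain ⟨g1, -, -, -, g5, g6⟩ := hx x hxm
    obtain ⟨q1, q2, q3, q4⟩ := (hF x hxm).1 q hq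
    have he : 1 ≤ e2 a := by rcases e2_cases a with h | h <;> rw [h] <;> norm_num
    refine ⟨?_, ?_, q4⟩
    · exact Nat.one_le_iff_ne_zero.2 (mul_ne_zero (mul_ne_zero (mul_ne_zero (by omega)
        (by omega)) (by omega)) q3.ne_zero)
    · calc e2 a * x.1 * (∏ i, x.2 i) * q ≤ e2 a * x.1 * (∏ i, x.2 i) *
            (2 * (y / (2 * (e2 a * x.1 * ∏ i, x.2 i)))) := Nat.mul_le_mul_left _ q2
        _ = 2 * (e2 a * x.1 * ∏ i, x.2 i) * (y / (2 * (e2 a * x.1 * ∏ i, x.2 i))) := by ring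
        _ ≤ y := Nat.mul_div_le _ _
  · intro n hn p hp hpd
    rw [mem_image] at hn
    obtain ⟨⟨x, q⟩, hz, rfl⟩ := hn
    rw [mem_sigma] at hz
    obtain ⟨hxm, hq⟩ := hz
    simp only at hxm hq hpd
    obtain ⟨q1, q2, q3, q4⟩ := (hF x hxm).1 q hq
    rcases (Nat.Prime.dvd_mul hp).1 hpd with h | h
    · exact (hpf x hxm p hp h).trans hZ3
    · rw [(Nat.prime_dvd_prime_iff_eq hp q3).1 h]
      have h5 : (q : ℝ) ≤ 2 * ((y / (2 * (e2 a * x.1 * ∏ i, x.2 i)) : ℕ) : ℝ) := by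
        exact_mod_cast q2
      exact h5.trans (hsz x hxm).2.2
  · rw [card_image_of_injOn, card_sigma]
    · -- the count
      have hQ0 : 0 ≤ pQ := by
        refine Finset.prod_nonneg fun s hs => ?_
        have hs3 : 3 ≤ s := by
          unfold QQ at hs
          rw [mem_filter, mem_Icc] at hs
          exact hs.1.1
        have hs3' : (3 : ℝ) ≤ s := by exact_mod_cast hs3
        have : 1 / ((s : ℝ) - 1) ≤ 1 := by
          rw [div_le_one (by linarith)]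
          linarith
        linarith
      have hone : ∀ x ∈ M ×ˢ V, c₁ * pQ * (y / (24 * Real.log Z)) *
          ((1 / (x.1 : ℝ)) * ∏ i, (1 / (x.2 i : ℝ))) ≤ ((F x).card : ℝ) := by
        intro x hxm
        obtain ⟨g1, g2, g3, g4, g5, g6⟩ := hx x hxm
        obtain ⟨s1, s2, s3⟩ := hsz x hxm
        refine le_trans ?_ (hF x hxm).2
        set X : ℝ := ((y / (2 * (e2 a * x.1 * ∏ i, x.2 i)) : ℕ) : ℝ) with hX
        have hX0 : 0 < X := by linarith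
        have hX1 : 0 < Real.log X := Real.log_pos (by linarith)
        have hlX : Real.log X ≤ 3 * Real.log Z := by
          calc Real.log X ≤ Real.log (Z ^ 3) := Real.log_le_log hX0 (by linarith)
            _ = 3 * Real.log Z := by rw [Real.log_pow]; norm_num
        have hx1 : (1 : ℝ) ≤ x.1 := by exact_mod_cast g1
        have hP1 : (1 : ℝ) ≤ ((∏ i, x.2 i : ℕ) : ℝ) := by exact_mod_cast g6
        have h5 : (y : ℝ) / (24 * Real.log Z) * ((1 / (x.1 : ℝ)) * ∏ i, (1 / (x.2 i : ℝ))) ≤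
            X / Real.log X := by
          have h6 : (∏ i, (1 / (x.2 i : ℝ))) = 1 / ((∏ i, x.2 i : ℕ) : ℝ) := by
            push_cast
            rw [Finset.prod_div_distrib, Finset.prod_const_one]
          rw [h6]
          calc (y : ℝ) / (24 * Real.log Z) * ((1 / (x.1 : ℝ)) * (1 / ((∏ i, x.2 i : ℕ) : ℝ)))
              = ((y : ℝ) / (8 * x.1 * (∏ i, x.2 i : ℕ))) / (3 * Real.log Z) := by
                have : Real.log Z ≠ 0 := by linarith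
                field_simp
                ring
            _ ≤ X / (3 * Real.log Z) := div_le_div_of_nonneg_right s2 (by linarith)
            _ ≤ X / Real.log X := div_le_div_of_nonneg_left hX0.le hX1 hlX
        calc c₁ * pQ * (y / (24 * Real.log Z)) * ((1 / (x.1 : ℝ)) * ∏ i, (1 / (x.2 i : ℝ)))
            = c₁ * pQ * (y / (24 * Real.log Z) * ((1 / (x.1 : ℝ)) * ∏ i, (1 / (x.2 i : ℝ)))) := by
              ring
          _ ≤ c₁ * pQ * (X / Real.log X) := mul_le_mul_of_nonneg_left h5 (by positivity)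
          _ = c₁ * (X / Real.log X) * pQ := by ring
      -- the sum over `m`
      have hSM := h1 (BB w a) U (fun p hp => by
        unfold BB at hp
        rw [mem_filter] at hp
        exact hp.2.1) hU1
      set pB : ℝ := ∏ p ∈ BB w a, (1 - 1 / (p : ℝ)) with hpB
      have hB0 : 0 ≤ pB := by
        refine Finset.prod_nonneg fun s hs => ?_
        have hs2 : 2 ≤ s := by
          unfold BB at hs
          rw [mem_filter, mem_Icc] at hs
          exact hs.1.1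
        have hs2' : (2 : ℝ) ≤ s := by exact_mod_cast hs2
        have : 1 / (s : ℝ) ≤ 1 := by
          rw [div_le_one (by linarith)]
          linarith
        linarith
      have hSm : pB * (Real.log Z / 8) ≤ ∑ m ∈ M, 1 / (m : ℝ) :=
        (mul_le_mul_of_nonneg_left hUlog hB0).trans hSM
      -- the sum over `f`
      have hSf : (1 / (8 * (k : ℝ) ^ 2)) ^ (k - 2) ≤ ∑ f ∈ V, ∏ i, (1 / (f i : ℝ)) := by
        rw [hV, ← Finset.prod_univ_sum (fun i : Fin (k - 2) => win Z k i)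
          (fun _ p => 1 / (p : ℝ))]
        calc (1 / (8 * (k : ℝ) ^ 2)) ^ (k - 2) = ∏ _i : Fin (k - 2), 1 / (8 * (k : ℝ) ^ 2) := by
              simp
          _ ≤ ∏ i : Fin (k - 2), ∑ p ∈ win Z k i, 1 / (p : ℝ) :=
              Finset.prod_le_prod (fun i _ => by positivity) fun i _ =>
                hWI Z k i hZgt (hik i) hKk
      have hk2 : (1 / (8 * (k : ℝ) ^ 2)) ^ k ≤ (1 / (8 * (k : ℝ) ^ 2)) ^ (k - 2) := by
        refine pow_le_pow_of_le_one (by positivity) ?_ (by omega)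
        rw [div_le_one (by positivity)]
        linarith
      have hPQ' := hPQ w a hw
      have hlw : 0 < Real.log w := Real.log_pos (by linarith)
      have hlZ : 0 < Real.log Z := by linarith
      push_cast
      calc c₁ * c₂ / 192 * (y / Real.log w) * (1 / (8 * (k : ℝ) ^ 2)) ^ k
          = c₁ * (c₂ / Real.log w) * (y / 192) * (1 / (8 * (k : ℝ) ^ 2)) ^ k := by ring
        _ ≤ c₁ * (pB * pQ) * (y / 192) * (1 / (8 * (k : ℝ) ^ 2)) ^ (k - 2) := by gcongr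
        _ = c₁ * pQ * (y / (24 * Real.log Z)) * ((pB * (Real.log Z / 8)) *
            (1 / (8 * (k : ℝ) ^ 2)) ^ (k - 2)) := by
            field_simp
            ring
        _ ≤ c₁ * pQ * (y / (24 * Real.log Z)) * ((∑ m ∈ M, 1 / (m : ℝ)) *
            ∑ f ∈ V, ∏ i, (1 / (f i : ℝ))) := by
            gcongr
        _ = ∑ x ∈ M ×ˢ V, c₁ * pQ * (y / (24 * Real.log Z)) *
            ((1 / (x.1 : ℝ)) * ∏ i, (1 / (x.2 i : ℝ))) := by
            rw [Finset.sum_mul_sum, ← Finset.sum_product', Finset.mul_sum]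
        _ ≤ ∑ x ∈ M ×ˢ V, ((F x).card : ℝ) := Finset.sum_le_sum hone
    · -- injectivity
      rintro ⟨x, q⟩ hz ⟨x', q'⟩ hz' heq
      rw [mem_coe, mem_sigma] at hz hz'
      obtain ⟨hxm, hq⟩ := hz
      obtain ⟨hxm', hq'⟩ := hz'
      simp only at hxm hq hxm' hq' heq
      obtain ⟨g1, g2, g3, g4, g5, g6⟩ := hx x hxm
      obtain ⟨g1', g2', g3', g4', g5', g6'⟩ := hx x' hxm'
      have hqp : q.Prime := ((hF x hxm).1 q hq).2.2.1
      have hqp' : q'.Prime := ((hF x' hxm').1 q' hq').2.2.1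
      have hqq : q = q' := by
        have h5 : q ∣ e2 a * x'.1 * (∏ i, x'.2 i) * q' := by
          rw [← heq]
          exact Dvd.intro_left _ rfl
        rcases (Nat.Prime.dvd_mul hqp).1 h5 with h | h
        · have h6 := hpf x' hxm' q hqp h
          have h7 := hqZ x hxm q hq
          linarith
        · exact (Nat.prime_dvd_prime_iff_eq hqp hqp').1 h
      subst hqq
      have h5 : e2 a * x.1 * (∏ i, x.2 i) = e2 a * x'.1 * (∏ i, x'.2 i) :=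
        Nat.eq_of_mul_eq_mul_right hqp.pos heq
      have he : 0 < e2 a := by rcases e2_cases a with h | h <;> rw [h] <;> norm_num
      have hff : x.2 = x'.2 := by
        funext i
        have hd : x.2 i ∣ e2 a * x'.1 * ∏ i, x'.2 i := by
          rw [← h5]
          exact Dvd.dvd.mul_left (Finset.dvd_prod_of_mem _ (Finset.mem_univ i)) _
        rcases pfac a x'.1 x'.2 (fun i => (g5' i).1) (x.2 i) (g5 i).1 hd with h | h | ⟨j, h⟩
        · have h6 : (x.2 i : ℝ) ≤ 2 := by exact_mod_cast h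
          have h7 := (g5 i).2.2
          linarith
        · have h6 : (x.2 i : ℝ) ≤ x'.1 := by exact_mod_cast Nat.le_of_dvd g1' h
          have h7 := (g5 i).2.2
          linarith
        · rcases lt_trichotomy (i : ℕ) (j : ℕ) with hij | hij | hij
          · exfalso
            have h8 := g4' j
            rw [← h] at h8
            exact win_disj hZ1 hk hij (g4 i) h8
          · rw [h, Fin.ext hij]
          · exfalso
            have h8 := g4' j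
            rw [← h] at h8
            exact win_disj hZ1 hk hij h8 (g4 i)
      have hmm : x.1 = x'.1 := by
        rw [hff] at h5
        have h6 := Nat.eq_of_mul_eq_mul_right (by omega : 0 < ∏ i, x'.2 i) h5
        exact Nat.eq_of_mul_eq_mul_left he h6
      have hxx : x = x' := Prod.ext hmm hff
      subst hxx
      rfl

end Pool.Agent.Helper6.RS
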