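import Pool.Agent.Helper73.RS.St

set_option autoImplicit false

namespace Pool.Agent.Helper6.RS

open Pool.Agent.Helper73.RS
open Filter Topology

private theorem ptw (A : ℕ → Set ℕ) (x k : ℕ) :
    ∑ i ∈ Finset.range k, ind (A i) x ≤
      1 + ∑ i ∈ Finset.range k, ∑ j ∈ Finset.range i, ind (A j ∩ A i) x := by
  induction k with
  | zero => simp
  | succ k ih =>
    rw [Finset.sum_range_succ, Finset.sum_range_succ]
    have h0 : 0 ≤ ∑ j ∈ Finset.range k, ind (A j ∩ A k) x :=
      Finset.sum_nonneg fun j _ => ind_nonneg _ _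
    by_cases hx : x ∈ A k
    · rw [ind_of_mem hx]
      by_cases hj : ∃ j ∈ Finset.range k, x ∈ A j
      · obtain ⟨j, hj1, hj2⟩ := hj
        have h1 : ind (A j ∩ A k) x ≤ ∑ j ∈ Finset.range k, ind (A j ∩ A k) x :=
          Finset.single_le_sum (f := fun j => ind (A j ∩ A k) x) (fun j _ => ind_nonneg _ _) hj1
        rw [ind_of_mem (show x ∈ A j ∩ A k from ⟨hj2, hx⟩)] at h1
        linarith
      · have h2 : ∑ i ∈ Finset.range k, ind (A i) x = 0 := by
          refine Finset.sum_eq_zero fun i hi => ?_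
          exact ind_of_notMem fun h => hj ⟨i, hi, h⟩
        have h3 : 0 ≤ ∑ i ∈ Finset.range k, ∑ j ∈ Finset.range i, ind (A j ∩ A i) x :=
          Finset.sum_nonneg fun i _ => Finset.sum_nonneg fun j _ => ind_nonneg _ _
        rw [h2]
        linarith
    · rw [ind_of_notMem hx]
      linarith

/-- **RCU**. -/
theorem holds_RCU : StRCU := by
  intro B S hB hS
  obtain ⟨μ, h1, h2, h3⟩ := hB
  by_contra hcon
  simp only [not_exists, not_and] at hcon
  set A : ℕ → Set ℕ := fun i => {x | x + S i ∈ B} with hA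
  have hμA : ∀ i, μ (ind (A i)) = μ (ind B) := by
    intro i
    have h4 := h2.add (Bd.ind B) (S i)
    rw [ind_comp B (fun x => x + S i)] at h4
    exact h4
  have hμAA : ∀ i j, i < j → μ (ind (A i ∩ A j)) = 0 := by
    intro i j hij
    by_contra hne
    have hpos : 0 < μ (ind (A i ∩ A j)) := lt_of_le_of_ne (h1.ind_nonneg _) (Ne.symm hne)
    have hL : Large (A i ∩ A j) := ⟨μ, h1, h2, hpos⟩
    have hL2 : Large {x | x + S i ∈ {b | b ∈ B ∧ b + (S j - S i) ∈ B}} := by
      refine hL.mono ?_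
      rintro x ⟨hx1, hx2⟩
      refine ⟨hx1, ?_⟩
      have h5 : x + S i + (S j - S i) = x + S j := by
        have := hS hij.le
        omega
      show x + S i + (S j - S i) ∈ B
      rw [h5]
      exact hx2
    exact hcon i j hij ((large_shift _ _).1 hL2)
  obtain ⟨k, hk⟩ := exists_nat_gt (1 / μ (ind B))
  have hk2 : 1 < (k : ℝ) * μ (ind B) := by
    rwa [div_lt_iff₀ h3] at hk
  have e1 : μ (fun x => ∑ i ∈ Finset.range k, ind (A i) x) = k * μ (ind B) := by
    rw [h1.sum (Finset.range k) (f := fun i => ind (A i)) (fun i _ => Bd.ind _)]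
    simp only [hμA, Finset.sum_const, Finset.card_range, nsmul_eq_mul]
  have hb2 : ∀ i ∈ Finset.range k, Bd (fun x => ∑ j ∈ Finset.range i, ind (A j ∩ A i) x) :=
    fun i _ => Bd.sum (Finset.range i) (f := fun j => ind (A j ∩ A i)) fun j _ => Bd.ind _
  have e2 : μ (fun x => 1 + ∑ i ∈ Finset.range k, ∑ j ∈ Finset.range i, ind (A j ∩ A i) x) = 1 := by
    rw [h1.add (fun _ => 1) _ (Bd.const 1) (Bd.sum (Finset.range k) hb2), h1.const,
      h1.sum (Finset.range k) hb2]
    have h6 : ∀ i ∈ Finset.range k, μ (fun x => ∑ j ∈ Finset.range i, ind (A j ∩ A i) x) = 0 := by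
      intro i _
      rw [h1.sum (Finset.range i) (f := fun j => ind (A j ∩ A i)) (fun j _ => Bd.ind _)]
      refine Finset.sum_eq_zero fun j hj => ?_
      exact hμAA j i (Finset.mem_range.1 hj)
    rw [Finset.sum_eq_zero h6, add_zero]
  have h7 := h1.mono (f := fun x => ∑ i ∈ Finset.range k, ind (A i) x)
    (g := fun x => 1 + ∑ i ∈ Finset.range k, ∑ j ∈ Finset.range i, ind (A j ∩ A i) x)
    (Bd.sum (Finset.range k) fun i _ => Bd.ind _)
    ((Bd.const 1).add (Bd.sum (Finset.range k) hb2)) (fun x => ptw A x k)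
  rw [e1, e2] at h7
  linarith

end Pool.Agent.Helper6.RS
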